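import Pool.Agent.V5helper44.FZ.Stm2

/-!
# Project FZ, job EXC: the exceptional set of the formula of Hardy and Littlewood is sparse
-/

set_option autoImplicit false

open Finset MeasureTheory Filter Topology

namespace Pool.Agent.V5helper32.FZ

open Pool.Agent.V5helper44.FZ
open Pool.Agent.Results.MP_dd84fd_nt.AsymptoticEveryModulus (Formula exceptional)

theorem t_EXC : S_EXC := by
  intro ε A hε U
  obtain ⟨x₀, hx₀⟩ := Pool.Agent.Results.MP_dd84fd_nt.AsymptoticEveryModulus.result ε (1 / 3) hε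
    (by norm_num) U A 0
  refine ⟨max x₀ 1, fun x hx => ?_⟩
  have hx1 : (1 : ℝ) ≤ x := le_trans (le_max_right _ _) hx
  have hx2 : x₀ ≤ x := le_trans (le_max_left _ _) hx
  have h := (hx₀ x hx2 1 le_rfl (by
    rw [Nat.cast_one]
    exact Real.one_le_rpow hx1 (by norm_num)) 0 (by simp)).2
  have hset : {m : ℕ | m ∈ Exc ε A ∧ (m : ℝ) ≤ x} = exceptional ε A x 1 0 := by
    ext n
    simp only [Exc, exceptional, Set.mem_setOf_eq]
    constructor
    · rintro ⟨⟨h1, h2, h3⟩, h4⟩
      refine ⟨h1, h4, even_iff_two_dvd.mp h2, ?_, h3⟩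
      rw [Nat.cast_one]
      exact Int.modEq_one
    · rintro ⟨h1, h4, h2, -, h3⟩
      exact ⟨⟨h1, even_iff_two_dvd.mpr h2, h3⟩, h4⟩
  rw [hset]
  simpa using h

end Pool.Agent.V5helper32.FZ
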